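import Mathlib

/-!
# Statements of the jobs of project GLV (MP_2f8bd9_al)

`V` is a vector space of infinite dimension over a field `F` with more elements than `dim V`; a
subgroup `H` of `GL(V)` that induces `GL(U)` on every large subspace `U` is `GL(V)`.
All maps act on the left here.
-/

set_option autoImplicit false

namespace Pool.Agent.Q31.GLV

open Module Cardinal Submodule

section defs
variable {F V : Type} [Field F] [AddCommGroup V] [Module F V]

/-- large subspaces: dimension and codimension are the dimension of `V` -/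
def Large (U : Submodule F V) : Prop :=
  Module.rank F U = Module.rank F V ∧ Module.rank F (V ⧸ U) = Module.rank F V

/-- `H` induces the full linear group on every large subspace -/
def Full (H : Subgroup (V ≃ₗ[F] V)) : Prop :=
  ∀ U : Submodule F V, Large U → ∀ g : U ≃ₗ[F] U, ∃ h ∈ H, ∀ u : U, h (u : V) = (g u : V)

/-- `t` is the identity on `W` and on `V / W` -/
def Tv (W : Submodule F V) (t : V ≃ₗ[F] V) : Prop :=
  (∀ w ∈ W, t w = w) ∧ ∀ v, t v - v ∈ W

/-- square zero, of large rank and with large `ker / im` -/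
def Good (δ : V →ₗ[F] V) : Prop :=
  (∀ v, δ (δ v) = 0) ∧ Module.rank F (LinearMap.range δ) = Module.rank F V ∧
    ∃ L : Submodule F V, L ≤ LinearMap.ker δ ∧ Disjoint L (LinearMap.range δ) ∧
      Module.rank F L = Module.rank F V

/-- `S` contains all `t` as in `Tv W` for large `W` -/
def HasTv (S : Subgroup (V ≃ₗ[F] V)) : Prop := ∀ W : Submodule F V, Large W → ∀ t, Tv W t → t ∈ S

/-- `A` and `B` lie in a common large `W`, with large codimension in it -/
def Near (A B : Submodule F V) : Prop :=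
  ∃ W : Submodule F V, Large W ∧ A ≤ W ∧ B ≤ W ∧
    Module.rank F (W ⧸ A.submoduleOf W) = Module.rank F V ∧
    Module.rank F (W ⧸ B.submoduleOf W) = Module.rank F V

/-- `H` contains, for every `y` in `GL(U)`, an extension of `y` which is the identity on `V / U` -/
def NT (H : Subgroup (V ≃ₗ[F] V)) (U : Submodule F V) : Prop :=
  ∀ y : U ≃ₗ[F] U, ∃ k ∈ H, (∀ u : U, k (u : V) = (y u : V)) ∧ ∀ v, k v - v ∈ U

/-- `1 + τ` is in `H`, where `τ : V → U` kills `U` -/
def InT (H : Subgroup (V ≃ₗ[F] V)) (U : Submodule F V) (τ : V →ₗ[F] U) : Prop :=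
  (∀ u : U, τ (u : V) = 0) ∧ ∃ t ∈ H, ∀ v, t v = v + (τ v : V)

end defs

/-- EIG. Proof: eigenvectors for different eigenvalues are independent, so `f` has at most
`rank V < #F` eigenvalues, and `F` minus zero has `#F` elements (`F` infinite). -/
def S_EIG : Prop := ∀ (F V : Type) [Field F] [AddCommGroup V] [Module F V], ℵ₀ ≤ #F →
  Module.rank F V < #F → ∀ f : V →ₗ[F] V, ∃ c : F, c ≠ 0 ∧ ∀ v, f v = c • v → v = 0

/-- DEC. Proof: a basis of `V` is indexed by `B` with `#B = rank V` infinite, take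
`B ≃ (ι × ℤ) ⊕ ι` with `ι = B` (cardinals) and the first summand. -/
def S_DEC : Prop := ∀ (F V : Type) [Field F] [AddCommGroup V] [Module F V],
  ℵ₀ ≤ Module.rank F V → ∃ (ι : Type) (e : ι × ℤ → V), #ι = Module.rank F V ∧
    LinearIndependent F e ∧ Large (span F (Set.range e))

/-- SHI. Proof: `x - c` is injective on the span of `e`, where `x` is the shift (consider the largest
`n` with a nonzero coefficient of some `e (i, n)`; it gives a nonzero coefficient at `n + 1`). -/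
def S_SHI : Prop := ∀ (F V ι : Type) [Field F] [AddCommGroup V] [Module F V] (e : ι × ℤ → V)
  (h : V ≃ₗ[F] V) (c : F), LinearIndependent F e → (∀ i n, h (e (i, n)) = e (i, n + 1)) →
    LinearIndependent F (fun p => h (e p) - c • e p)

/-- SHQ. Proof: let `U = span (range e)` and `Φ : U → (ι →₀ F)`, `Φ (e (i, n)) = c ^ n • δ_i`, onto, and
`Φ` kills `(h - c) U`. By the hypothesis `range (h - c) ∩ U = (h - c) U`, so `Φ` extends to
`U + range (h - c)` by zero on `range (h - c)`, and then to a linear map on `V` (a field), which is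
onto and kills `range (h - c)`. -/
def S_SHQ : Prop := ∀ (F V ι : Type) [Field F] [AddCommGroup V] [Module F V] (e : ι × ℤ → V)
  (h : V ≃ₗ[F] V) (c : F), c ≠ 0 → LinearIndependent F e →
    (∀ i n, h (e (i, n)) = e (i, n + 1)) →
    (∀ v, h v - c • v ∈ span F (Set.range e) → v ∈ span F (Set.range e)) →
    #ι ≤ Module.rank F (V ⧸ LinearMap.range ((h : V →ₗ[F] V) - c • LinearMap.id))

/-- ST1, may use S_EIG, S_DEC, S_SHI, S_SHQ. Proof: `e₀` from DEC, `U₀ = span (range e₀)`, `g` the shift of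
`U₀`, `h` in `H` extends `g`. EIG for the map of `V / U₀` induced by `h` gives `c ≠ 0` with
`h v - c v ∈ U₀ → v ∈ U₀`. Take `e p = h (e₀ p) - c • e₀ p`; independent by SHI; the range of
`h - c` is large by SHI and SHQ (rank of a subspace or quotient of `V` is at most the rank). -/
def S_ST1 : Prop := ∀ (F V : Type) [Field F] [AddCommGroup V] [Module F V],
  ℵ₀ ≤ Module.rank F V → Module.rank F V < #F → ∀ H : Subgroup (V ≃ₗ[F] V), Full H →
    ∃ h ∈ H, ∃ (c : F) (ι : Type) (e : ι × ℤ → V), c ≠ 0 ∧ #ι = Module.rank F V ∧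
      LinearIndependent F e ∧ (∀ i n, h (e (i, n)) = e (i, n + 1)) ∧
      (∀ p, e p ∈ LinearMap.range ((h : V →ₗ[F] V) - c • LinearMap.id)) ∧
      Large (LinearMap.range ((h : V →ₗ[F] V) - c • LinearMap.id))

/-- S2. Proof: extend `e` to a basis; `ε (e (i, 4)) = e (i, 0)`, `ε = 0` on all other basis vectors;
`f = 1 + ε`, `f⁻¹ = 1 - ε`. With `ε' = x ε x⁻¹` one has `ε² = 0`, `ε' ε = 0` (as `x⁻¹ e (i, 0) = e (i, -1)` is
killed by `ε`), `ε ε' = 0`, `ε'² = 0`, so the commutator is `1 + δ`, `δ = ε' - ε`. `δ (e (i, 4)) = - e (i, 0)`,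
the range of `δ` is in the span of the `e (i, 0)`, `e (i, 1)`; `L` = span of the `e (i, 2)`. -/
def S_S2 : Prop := ∀ (F V ι : Type) [Field F] [AddCommGroup V] [Module F V] (e : ι × ℤ → V)
  (x : V ≃ₗ[F] V), ℵ₀ ≤ Module.rank F V → #ι = Module.rank F V → LinearIndependent F e →
    (∀ i n, x (e (i, n)) = e (i, n + 1)) →
    ∃ (f : V ≃ₗ[F] V) (δ : V →ₗ[F] V), Good δ ∧ ∀ v, (x * f * x⁻¹ * f⁻¹) v = v + δ v

/-- NF (normal form). Proof: `V = Q ⊕ ker δ`, `ker δ = range δ ⊕ L'` with `L ≤ L'`, `δ : Q ≃ range δ`; the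
ranks of `Q` and `L'` are the rank of `V`, so both are isomorphic to `V`. -/
def S_NF : Prop := ∀ (F V : Type) [Field F] [AddCommGroup V] [Module F V],
  ℵ₀ ≤ Module.rank F V → ∀ δ : V →ₗ[F] V, Good δ →
    ∃ φ : V ≃ₗ[F] V × V × V, ∀ v, φ (δ v) = (0, (φ v).1, 0)

/-- SP. Proof: let `t = 1 + τ`, `τ` kills `W` and has range in `W`. Choose a complement of `W` and split it
as `Q₁ ⊕ Q₂ ⊕ Q₃ ⊕ Q₄`, all of rank `κ = rank V`. Write `τ` as the sum of `τ'` (zero on `Q₃ ⊕ Q₄`) and `τ''` (zero on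
`Q₁ ⊕ Q₂`). With `θ` injective from `Q₃` into `W` and zero on `W` and the other `Q`s, `τ' + θ` and `-θ` are
good (`L = Q₄`), the same for `τ''` with `Q₁`, `Q₂`. As all maps kill `W` and have range in `W`, the product
of the four elements `1 + ...` is `1 + τ`. -/
def S_SP : Prop := ∀ (F V : Type) [Field F] [AddCommGroup V] [Module F V],
  ℵ₀ ≤ Module.rank F V → ∀ S : Subgroup (V ≃ₗ[F] V),
    (∀ (s : V ≃ₗ[F] V) (δ : V →ₗ[F] V), Good δ → (∀ v, s v = v + δ v) → s ∈ S) → HasTv S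

/-- WH (Whitehead). Proof: with `V = X × X × Y`, the elements `1 + e₁₂(a)` and `1 + e₂₁(a)`, `a : X → X`, are
in `Tv` of the large subspaces `X × 0 × 0` and `0 × X × 0`, and `diag(f, f⁻¹)` is the product
`E₁₂(f) E₂₁(-f⁻¹) E₁₂(f) E₁₂(-1) E₂₁(1) E₁₂(-1)`. -/
def S_WH : Prop := ∀ (F V X Y : Type) [Field F] [AddCommGroup V] [Module F V]
  [AddCommGroup X] [Module F X] [AddCommGroup Y] [Module F Y] (φ : V ≃ₗ[F] X × X × Y),
  ℵ₀ ≤ Module.rank F V → Module.rank F X = Module.rank F V → ∀ S : Subgroup (V ≃ₗ[F] V), HasTv S →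
    ∀ (f : X ≃ₗ[F] X) (t : V ≃ₗ[F] V),
      (∀ v, φ (t v) = (f (φ v).1, f.symm (φ v).2.1, (φ v).2.2)) → t ∈ S

/-- SW (swindle), may use S_WH. Proof: `Y ≃ (ℕ →₀ X)` (same rank), so `V ≃ (ℕ →₀ X)` with `t` acting as `f` on
the coordinate `0` and as the identity on the others. `t = t₁ t₂` with `t₁ = diag(f, f⁻¹, f, f⁻¹, ...)` and
`t₂ = diag(1, f, f⁻¹, f, f⁻¹, ...)`; both are in `S` by WH, applied to `X' = (ℕ →₀ X)` (even and odd
coordinates) with `Y' = 0` resp. `Y' = X`. -/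
def S_SW : Prop := ∀ (F V X Y : Type) [Field F] [AddCommGroup V] [Module F V]
  [AddCommGroup X] [Module F X] [AddCommGroup Y] [Module F Y] (φ : V ≃ₗ[F] X × Y),
  ℵ₀ ≤ Module.rank F V → Module.rank F X = Module.rank F V → Module.rank F Y = Module.rank F V →
  ∀ S : Subgroup (V ≃ₗ[F] V), HasTv S → ∀ (f : X ≃ₗ[F] X) (t : V ≃ₗ[F] V),
    (∀ v, φ (t v) = (f (φ v).1, (φ v).2)) → t ∈ S

/-- FX, may use S_SW. Proof: `C` a complement of `A` (rank of `C` = rank of `V / A`), `t c = p c + q c` with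
`p c ∈ A`, `q c ∈ C`, `q` invertible (the map induced by `t` on `V / A`). `t = (1 + p q⁻¹ π_C) (1_A ⊕ q)`; the
first factor is in `Tv A`, the second in `S` by SW. -/
def S_FX : Prop := ∀ (F V : Type) [Field F] [AddCommGroup V] [Module F V],
  ℵ₀ ≤ Module.rank F V → ∀ S : Subgroup (V ≃ₗ[F] V), HasTv S → ∀ A : Submodule F V, Large A →
    ∀ t : V ≃ₗ[F] V, (∀ a ∈ A, t a = a) → t ∈ S

/-- CHN. Proof: first `X ≤ A` of rank `κ = rank V` with `rank V / (X + B) = κ`: let `A = (A ∩ B) ⊕ A₁`. If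
`rank A₁ < κ` then `X = A` (`rank V / B ≤ rank A₁ + rank V / (A + B)`). Otherwise `A₁ = X ⊕ X'` with both of rank
`κ`, and `X'` embeds in `V / (X + B)`. Then `X` is large. For `Near A X` take `A ≤ W` with `W / A` and
`V / W` of rank `κ`; for `Near X B` take `X + B ≤ W` with `W / (X + B)` and `V / W` of rank `κ`. -/
def S_CHN : Prop := ∀ (F V : Type) [Field F] [AddCommGroup V] [Module F V],
  ℵ₀ ≤ Module.rank F V → ∀ A B : Submodule F V, Large A → Large B →
    ∃ X : Submodule F V, Large X ∧ Near A X ∧ Near X B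

/-- NEA. Proof: in `W` choose complements `C`, `C'` of `A`, `B`; `A ≃ B` and `C ≃ C'` by the ranks, so some
`g : W ≃ W` maps `A` onto `B`; extend it by `Full S`. -/
def S_NEA : Prop := ∀ (F V : Type) [Field F] [AddCommGroup V] [Module F V],
  ∀ S : Subgroup (V ≃ₗ[F] V), Full S → ∀ A B : Submodule F V, Large A → Large B → Near A B →
    ∃ s ∈ S, A.map (s : V →ₗ[F] V) = B

/-- TRA, from S_CHN and S_NEA -/
def S_TRA : Prop := ∀ (F V : Type) [Field F] [AddCommGroup V] [Module F V],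
  ℵ₀ ≤ Module.rank F V → ∀ S : Subgroup (V ≃ₗ[F] V), Full S → ∀ A B : Submodule F V, Large A →
    Large B → ∃ s ∈ S, A.map (s : V →ₗ[F] V) = B

/-- GEN, may use S_FX, S_TRA. Proof: (i) `Full S`: extend `g` by the identity on a complement `C` of `U`; `C` is
large and the extension fixes `C` pointwise: FX. (ii) Let `t` be given. `V = A ⊕ A' ⊕ R`, all three of rank
`rank V` (`V ≃ V × V × V`). By TRA there is `r ∈ S` with `r A = t⁻¹ A'`; `u = t r` maps `A` onto `A'`. Let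
`s = u` on `A`, `s = u⁻¹` on `A'`, `s = 1` on `R`; `s ∈ S` by FX for `R`; `s⁻¹ u` fixes `A` pointwise, so it is
in `S` by FX. -/
def S_GEN : Prop := ∀ (F V : Type) [Field F] [AddCommGroup V] [Module F V],
  ℵ₀ ≤ Module.rank F V → ∀ S : Subgroup (V ≃ₗ[F] V), HasTv S → S = ⊤

/-- CO. Proof: `k = h k_f h⁻¹ k_f⁻¹` where `k_f ∈ H` extends `f`; all these maps preserve `U`, and `h` acts as
the scalar `c` on `V / U`, so `k` is trivial there. -/
def S_CO : Prop := ∀ (F V : Type) [Field F] [AddCommGroup V] [Module F V],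
  ∀ H : Subgroup (V ≃ₗ[F] V), Full H → ∀ U : Submodule F V, Large U → ∀ h ∈ H, ∀ c : F, c ≠ 0 →
    (∀ v, h v - c • v ∈ U) → ∀ x : U ≃ₗ[F] U, (∀ u : U, (x u : V) = h (u : V)) →
    ∀ f : U ≃ₗ[F] U, ∃ k ∈ H, (∀ u : U, k (u : V) = ((x * f * x⁻¹ * f⁻¹) u : U)) ∧
      ∀ v, k v - v ∈ U

/-- NTT, may use S_CO, S_S2, S_NF, S_SP, S_GEN. Proof: `N` = the set of the `y` in `GL(U)` with a `k` as in `NT`; it is
a subgroup, normal by `Full H`, and contains all commutators of CO, `x` = restriction of `h` to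
`U = range (h - c)` (which `h` preserves). By S2 for the space `U` (rank of `U` = rank of `V`) `N` contains some
`1 + δ` with `δ` good; by NF all such elements are conjugate, so they are all in `N`; by SP and GEN (for the
space `U`) `N = ⊤`. -/
def S_NTT : Prop := ∀ (F V ι : Type) [Field F] [AddCommGroup V] [Module F V] (h : V ≃ₗ[F] V)
  (c : F) (e : ι × ℤ → V), ℵ₀ ≤ Module.rank F V → ∀ H : Subgroup (V ≃ₗ[F] V), Full H → h ∈ H →
    c ≠ 0 → #ι = Module.rank F V → LinearIndependent F e → (∀ i n, h (e (i, n)) = e (i, n + 1)) →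
    (∀ p, e p ∈ LinearMap.range ((h : V →ₗ[F] V) - c • LinearMap.id)) →
    Large (LinearMap.range ((h : V →ₗ[F] V) - c • LinearMap.id)) →
    NT H (LinearMap.range ((h : V →ₗ[F] V) - c • LinearMap.id))

/-- SUM. Proof: `V ≃ V × V`, so `e` is a 2 by 2 matrix of endomorphisms; `diag(a, d) = [[a,1],[1,0]] +
[[0,-1],[-1,d]]` and `[[0,b],[c,0]] = [[1,b],[0,1]] + [[-1,0],[c,-1]]`. -/
def S_SUM : Prop := ∀ (F V : Type) [Field F] [AddCommGroup V] [Module F V],
  ℵ₀ ≤ Module.rank F V → ∀ e : V →ₗ[F] V, ∃ a b c d : V ≃ₗ[F] V, ∀ v, e v = a v + b v + c v + d v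

/-- TA, may use S_SUM. Proof: the set of the `τ` with `InT` is closed under sums (products of the `t`), and under
`τ ↦ y τ` for `y` in `GL(U)`: conjugate `t` by the `k` of `NT`; use SUM for the space `U`. -/
def S_TA : Prop := ∀ (F V : Type) [Field F] [AddCommGroup V] [Module F V],
  ℵ₀ ≤ Module.rank F V → ∀ (H : Subgroup (V ≃ₗ[F] V)) (U : Submodule F V), Large U → NT H U →
    (∀ τ τ' : V →ₗ[F] U, InT H U τ → InT H U τ' → InT H U (τ + τ')) ∧
    ∀ (τ : V →ₗ[F] U) (e : U →ₗ[F] U), InT H U τ → InT H U (e ∘ₗ τ)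

/-- T5A. Proof: `NT` for the scalar `μ` on `U` gives `k ∈ H`, `k v = v + γ v` with `γ : V → U`, `γ = μ - 1` on `U`;
`C = ker γ` is a complement of `U`. Given `C₁`, the space `W = U + C₁` is large; choose an injective
`p : C₁ → U` (ranks) and `g ∈ GL(W)`, `g = 1` on `U`, `g c₁ = c₁ + p c₁` on `C₁`; let `h ∈ H` extend `g`, `h' = h⁻¹`.
Then `h' k h'⁻¹ k⁻¹ = 1 + τ` with `τ = γ (h - 1)`, which kills `U`, and `τ c₁ = (μ - 1) p c₁` on `C₁`. -/
def S_T5A : Prop := ∀ (F V : Type) [Field F] [AddCommGroup V] [Module F V],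
  ℵ₀ ≤ Module.rank F V → (∃ μ : F, μ ≠ 0 ∧ μ ≠ 1) → ∀ H : Subgroup (V ≃ₗ[F] V), Full H →
    ∀ U : Submodule F V, Large U → NT H U → ∃ C : Submodule F V, IsCompl U C ∧
      ∀ C₁ ≤ C, Module.rank F C₁ = Module.rank F V →
        Module.rank F (V ⧸ (U ⊔ C₁)) = Module.rank F V →
        ∃ τ : V →ₗ[F] U, InT H U τ ∧ ∀ v ∈ C₁, τ v = 0 → v = 0

/-- LA. Proof: `τ` factors through `(τ₁, τ₃) : V → U × U` (kernel condition), extend from its range to
`U × U` (a field). -/
def S_LA : Prop := ∀ (F V U : Type) [Field F] [AddCommGroup V] [Module F V] [AddCommGroup U]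
  [Module F U] (τ₁ τ₃ τ : V →ₗ[F] U), (∀ v, τ₁ v = 0 → τ₃ v = 0 → τ v = 0) →
    ∃ e₁ e₃ : U →ₗ[F] U, τ = e₁ ∘ₗ τ₁ + e₃ ∘ₗ τ₃

/-- T5, may use S_T5A, S_TA, S_LA. Proof: `C` from T5A. Split `C = C₁ ⊕ C₂` with both of rank `κ`, `τ₁` for `C₁`. The
space `K = ker τ₁ ∩ C` meets `C₁` in zero, so `rank C / K = κ`; choose `K ≤ C₃ ≤ C` with `rank C₃ = κ = rank C / C₃`,
`τ₃` for `C₃`. Then `ker τ₁ ∩ ker τ₃ = U` (both contain `U`), so by LA and TA `InT` holds for every `τ`
which kills `U`. -/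
def S_T5 : Prop := ∀ (F V : Type) [Field F] [AddCommGroup V] [Module F V],
  ℵ₀ ≤ Module.rank F V → (∃ μ : F, μ ≠ 0 ∧ μ ≠ 1) → ∀ H : Subgroup (V ≃ₗ[F] V), Full H →
    ∀ U : Submodule F V, Large U → NT H U → ∀ t, Tv U t → t ∈ H

end Pool.Agent.Q31.GLV
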