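import Pool.Agent.Q31.GLV.Stm

set_option autoImplicit false

namespace Pool.Agent.Q31.GLV

open Module Cardinal Submodule

theorem fin (h1 : S_ST1) (h2 : S_NTT) (h3 : S_T5) (h4 : S_TRA) (h5 : S_GEN)
    (F V : Type) [Field F] [AddCommGroup V] [Module F V] (hV : ℵ₀ ≤ Module.rank F V)
    (hF : Module.rank F V < #F) (H : Subgroup (V ≃ₗ[F] V)) (hH : Full H) : H = ⊤ := by
  obtain ⟨h, hh, c, ι, e, hc, hι, hli, hsh, hr, hL⟩ := h1 F V hV hF H hH
  have hN := h2 F V ι h c e hV H hH hh hc hι hli hsh hr hL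
  have hinf : Infinite F := Cardinal.infinite_iff.2 (hV.trans hF.le)
  have hμ : ∃ μ : F, μ ≠ 0 ∧ μ ≠ 1 := by
    classical
    obtain ⟨μ, hμ⟩ := Infinite.exists_notMem_finset ({0, 1} : Finset F)
    refine ⟨μ, fun h => hμ (by simp [h]), fun h => hμ (by simp [h])⟩
  have hT := h3 F V hV hμ H hH _ hL hN
  refine h5 F V hV H ?_
  intro W hW t ht
  obtain ⟨s, hs, hsW⟩ := h4 F V hV H hH _ W hL hW
  have hmem : s⁻¹ * t * s ∈ H := by
    apply hT
    have hsu : ∀ u ∈ LinearMap.range ((h : V →ₗ[F] V) - c • LinearMap.id), s u ∈ W := by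
      intro u hu
      rw [← hsW]
      exact Submodule.mem_map_of_mem (f := (s : V →ₗ[F] V)) hu
    refine ⟨fun u hu => ?_, fun v => ?_⟩
    · change s⁻¹ (t (s u)) = u
      rw [ht.1 _ (hsu u hu)]
      exact s.symm_apply_apply u
    · have hm := ht.2 (s v)
      rw [← hsW] at hm
      obtain ⟨u, hu, hu'⟩ := hm
      have h6 : t (s v) = s v + s u := by
        have : s u = t (s v) - s v := hu'
        rw [this]; abel
      change s⁻¹ (t (s v)) - v ∈ _
      rw [h6]
      have h7 : s⁻¹ (s v + s u) = v + u := by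
        rw [← map_add]
        exact s.symm_apply_apply _
      rw [h7, add_sub_cancel_left]
      exact hu
  have h8 : t = s * (s⁻¹ * t * s) * s⁻¹ := by group
  rw [h8]
  exact H.mul_mem (H.mul_mem hs hmem) (H.inv_mem hs)

end Pool.Agent.Q31.GLV
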