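import Pool.Agent.Q31.GLV.Fin
import Pool.Agent.Q222.GLV.EIG
import Pool.Agent.Q149.GLV.DEC
import Pool.Agent.Q154.GLV.SHI
import Pool.Agent.Q103.GLV.SHQ
import Pool.Agent.Q214.GLV.ST1
import Pool.Agent.Q214.GLV.S2
import Pool.Agent.Q18.GLV.NF
import Pool.Agent.Q285.GLV.SP
import Pool.Agent.Q158.GLV.WH
import Pool.Agent.Q230.GLV.SW
import Pool.Agent.Q278.GLV.FX
import Pool.Agent.Q259.GLV.CHN
import Pool.Agent.Q278.GLV.NEA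
import Pool.Agent.Q154.GLV.TRA
import Pool.Agent.Q231.GLV.GEN
import Pool.Agent.Q208.GLV.CO
import Pool.Agent.Q203.GLV.NTT
import Pool.Agent.Q224.GLV.SUM
import Pool.Agent.Q121.GLV.TA
import Pool.Agent.Q252.GLV.T5A
import Pool.Agent.Q217.GLV.LA
import Pool.Agent.Q121.GLV.T5

set_option autoImplicit false

namespace Pool.Agent.Q31.GLV

open Module Cardinal Submodule

theorem h_TRA : S_TRA := Pool.Agent.Q154.GLV.t_TRA Pool.Agent.Q259.GLV.t_CHN Pool.Agent.Q278.GLV.t_NEA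

theorem h_FX : S_FX := Pool.Agent.Q278.GLV.t_FX (Pool.Agent.Q230.GLV.t_SW Pool.Agent.Q158.GLV.t_WH)

theorem h_GEN : S_GEN := Pool.Agent.Q231.GLV.t_GEN h_FX h_TRA

theorem h_ST1 : S_ST1 := Pool.Agent.Q214.GLV.t_ST1 Pool.Agent.Q222.GLV.t_EIG
  Pool.Agent.Q149.GLV.t_DEC Pool.Agent.Q154.GLV.t_SHI Pool.Agent.Q103.GLV.t_SHQ

theorem h_NTT : S_NTT := Pool.Agent.Q203.GLV.t_NTT Pool.Agent.Q208.GLV.t_CO
  Pool.Agent.Q214.GLV.S2.t_S2 Pool.Agent.Q18.GLV.t_NF Pool.Agent.Q285.GLV.t_SP h_GEN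

theorem h_T5 : S_T5 := Pool.Agent.Q121.GLV.t_T5 Pool.Agent.Q252.GLV.t_T5A
  (Pool.Agent.Q121.GLV.TA.t_TA Pool.Agent.Q224.GLV.t_SUM) Pool.Agent.Q217.GLV.t_LA

theorem main (F V : Type) [Field F] [AddCommGroup V] [Module F V] (hV : ℵ₀ ≤ Module.rank F V)
    (hF : Module.rank F V < #F) (H : Subgroup (V ≃ₗ[F] V)) (hH : Full H) : H = ⊤ :=
  fin h_ST1 h_NTT h_T5 h_TRA h_GEN F V hV hF H hH

end Pool.Agent.Q31.GLV
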